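import Pool.Agent.H7.HD.Targets11
import Pool.Agent.H7.HD.All
import Pool.Agent.H20.HD9.LX

/-!
# MP_e37c09_lc, module CO1: almost all points of cofinality `ω` are in `Tg`
-/

open Ordinal Cardinal Order Set
open scoped ZFSet

universe u

namespace Pool.Agent.H60.HDA.CO1

open _root_.HD

theorem X (hGDD : T_GDD.{u}) (hNX : T_NX.{u}) : T_CO1.{u} := by
  intro D' D K lam Q f t X C W hD' hD hD0 hDD hK hDK hW ht hE hF hC hX hB
  have hSR : T_SR.{u} := Pool.Agent.H48.HD.SR.sr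
  have hPC : T_PC.{u} := Pool.Agent.H92.HD.pc
  have hKc : K.ord.cof = K := hK.cof_ord
  have hDle : D ≤ K.ord.cof := by rw [hKc]; exact hDK.le
  have hK0 : ℵ₀ < K := hD0.trans hDK
  have hlim : IsSuccLimit K.ord :=
    Ordinal.one_lt_cof_iff.1 (Cardinal.one_lt_aleph0.trans (by rw [hKc]; exact hK0))
  obtain ⟨C0, hC0, hC01⟩ := hGDD K lam Q f t hK hK0 ht hE
  have key : {ν : Ordinal.{u} | D' < ν.cof} ∈ W := by
    have h1 : Pos D'.ord K.ord univ := All.vc D' K.ord hD' (by rw [hKc]; exact hDD.trans hDK)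
    have h2 := hSR D D' K.ord W hD hD0 hDle hW hD' hDD univ h1
    filter_upwards [h2, hW.lim] with ν h3 h4
    exact hPC D' ν univ hD' h4 h3
  have hR := hSR D ℵ₀ K.ord W hD hD0 hDle hW Cardinal.isRegular_aleph0 hD0 _ hB
  have hN := hNX D K lam W hD hD0 hK hDK hW hF
  have hall : {ν : Ordinal.{u} | False} ∈ W := by
    filter_upwards [hW.lt, hW.cf, Pool.Agent.H20.HD9.LX.club_mem hW hlim hC,
      Pool.Agent.H20.HD9.LX.club_mem hW hlim hC0, key, hR, hN] with ν h1 h2 h3 h4 h5 h6 h7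
    obtain ⟨h8, h9⟩ := hX ν h3 ⟨h1, h5, h2, h7⟩
    have h10 := pos_diff All.va h7.1 h6 (hC01 ν h4 h1 h7 h9)
    obtain ⟨γ, hγ, -, ⟨h11, h12⟩, -⟩ := h10 univ ⟨fun a ha => by
      have hνl : IsSuccLimit ν :=
        Ordinal.one_lt_cof_iff.1 (Cardinal.one_lt_aleph0.trans h7.1)
      exact ⟨succ a, hνl.succ_lt ha, lt_succ a, trivial⟩, fun _ _ _ _ => trivial⟩
    exact h11 ⟨ν, hγ, h1, h8, not_not.1 h12⟩
  exact absurd (W.nonempty_of_mem hall) (by simp)

end Pool.Agent.H60.HDA.CO1
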