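import Pool.Agent.H7.HD.Targets11
import Pool.Agent.H7.HD.All
import Pool.Agent.H54.CL.Cod

/-!
# MP_e37c09_lc, module RK: the order type of the `π j < a`, `j < ξ`
-/

open Ordinal Cardinal Order Set
open scoped ZFSet

universe u

namespace Pool.Agent.H60.HDA.RK

open _root_.HD

/-! ## Order types -/

theorem nth_inter {X : Set Ordinal.{u}} {a z c : Ordinal.{u}} :
    nth (X ∩ Iio c) a z ↔ nth X a z ∧ z < c := by
  constructor
  · rintro ⟨⟨h1, h2⟩, g, h3, h4, h5⟩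
    exact ⟨⟨h1, g, h3, fun x hx => ⟨(h4 x hx).1.1, (h4 x hx).2⟩,
      fun y hy hyz => h5 y ⟨hy, hyz.trans h2⟩ hyz⟩, h2⟩
  · rintro ⟨⟨h1, g, h3, h4, h5⟩, h2⟩
    exact ⟨⟨h1, h2⟩, g, h3, fun x hx => ⟨⟨(h4 x hx).1, (h4 x hx).2.trans h2⟩, (h4 x hx).2⟩,
      fun y hy hyz => h5 y hy.1 hyz⟩

/-- the order type of `X` -/
noncomputable def ot (X : Set Ordinal.{u}) : Ordinal.{u} := sInf {i | ¬ ∃ z, nth X i z}

theorem ot_ne {X : Set Ordinal.{u}} {a : Ordinal.{u}} (hX : ∀ z ∈ X, z < a) :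
    {i | ¬ ∃ z, nth X i z}.Nonempty := by
  refine ⟨a, ?_⟩
  rintro ⟨z, hz⟩
  obtain ⟨h1, h2, -, -⟩ := All.vh X
  obtain ⟨i, hi, hiz⟩ := h1 z hz.1
  exact lt_irrefl _ ((h2 _ _ _ _ hiz hz).1 (hi.trans_lt (hX z hz.1)))

theorem lt_ot {X : Set Ordinal.{u}} {a : Ordinal.{u}} (hX : ∀ z ∈ X, z < a) {i : Ordinal.{u}} :
    i < ot X ↔ ∃ z, nth X i z := by
  constructor
  · intro h
    by_contra hc
    exact absurd (csInf_le' (s := {i | ¬ ∃ z, nth X i z}) hc) (not_le.2 h)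
  · rintro ⟨z, hz⟩
    by_contra hc
    push Not at hc
    have h1 : ¬ ∃ z, nth X (ot X) z := csInf_mem (ot_ne hX)
    rcases hc.eq_or_lt with h | h
    · exact h1 ⟨z, by rw [h]; exact hz⟩
    · obtain ⟨y, -, hy⟩ := (All.vh X).2.2.1 _ _ hz _ h
      exact h1 ⟨y, hy⟩

theorem nth_ot {X : Set Ordinal.{u}} {z : Ordinal.{u}} (hz : z ∈ X) :
    nth X (ot (X ∩ Iio z)) z := by
  obtain ⟨h1, h2, h3, -⟩ := All.vh X
  obtain ⟨i, -, hi⟩ := h1 z hz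
  have hb : ∀ y ∈ X ∩ Iio z, y < z := fun y hy => hy.2
  have he : i = ot (X ∩ Iio z) := by
    refine eq_of_forall_lt_iff fun k => ?_
    rw [lt_ot hb]
    constructor
    · intro hk
      obtain ⟨y, hy, hky⟩ := h3 _ _ hi _ hk
      exact ⟨y, nth_inter.2 ⟨hky, hy⟩⟩
    · rintro ⟨y, hy⟩
      obtain ⟨hy1, hy2⟩ := nth_inter.1 hy
      exact (h2 _ _ _ _ hy1 hi).2 hy2
  rw [← he]
  exact hi

theorem nth_unique {X : Set Ordinal.{u}} {i k z : Ordinal.{u}} (hi : nth X i z)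
    (hk : nth X k z) : i = k := by
  obtain ⟨-, h2, -, -⟩ := All.vh X
  rcases lt_trichotomy i k with h | h | h
  · exact absurd ((h2 _ _ _ _ hi hk).1 h) (lt_irrefl _)
  · exact h
  · exact absurd ((h2 _ _ _ _ hk hi).1 h) (lt_irrefl _)

/-! ## The function `Rk` -/

/-- the set of the `π j < a`, `j < ξ` -/
def Sx (π : Ordinal.{u} → Ordinal.{u}) (ξ a : Ordinal.{u}) : Set Ordinal.{u} :=
  {z | z < a ∧ ∃ j < ξ, z = π j}

theorem rk_eq (π : Ordinal.{u} → Ordinal.{u}) (ξ a : Ordinal.{u}) : Rk π ξ a = ot (Sx π ξ a) :=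
  rfl

theorem sx_inter {π : Ordinal.{u} → Ordinal.{u}} {ξ a z : Ordinal.{u}} (hz : z < a) :
    Sx π ξ a ∩ Iio z = Sx π ξ z := by
  ext y
  constructor
  · rintro ⟨⟨-, h⟩, h2⟩
    exact ⟨h2, h⟩
  · rintro ⟨h1, h⟩
    exact ⟨⟨(h1 : y < z).trans hz, h⟩, h1⟩

theorem lt_rk {π : Ordinal.{u} → Ordinal.{u}} {ξ a i : Ordinal.{u}} :
    i < Rk π ξ a ↔ ∃ z, nth (Sx π ξ a) i z := by
  rw [rk_eq]
  exact lt_ot (a := a) fun z hz => hz.1

theorem rk1 (π : Ordinal.{u} → Ordinal.{u}) (ξ a ζ : Ordinal.{u}) :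
    ζ < Rk π ξ a ↔ ∃ j < ξ, π j < a ∧ ζ = Rk π ξ (π j) := by
  constructor
  · intro h
    obtain ⟨z, hz⟩ := lt_rk.1 h
    obtain ⟨h1, j, hj, rfl⟩ := hz.1
    refine ⟨j, hj, h1, ?_⟩
    have h2 := nth_ot hz.1
    rw [sx_inter h1] at h2
    exact nth_unique hz h2
  · rintro ⟨j, hj, h1, rfl⟩
    refine lt_rk.2 ⟨π j, ?_⟩
    have h2 : π j ∈ Sx π ξ a := ⟨h1, j, hj, rfl⟩
    have h3 := nth_ot h2
    rw [sx_inter h1] at h3
    exact h3

theorem rk3 (π : Ordinal.{u} → Ordinal.{u}) (κ ζ : Ordinal.{u}) (_h1 : ∀ j < κ, π j < ζ)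
    (h2 : ∀ z < ζ, ∃ j < κ, z = π j) : ∀ z ≤ ζ, Rk π κ z = z := by
  intro z
  induction z using WellFoundedLT.induction with
  | ind z ih =>
    intro hz
    refine eq_of_forall_lt_iff fun i => ?_
    rw [rk1]
    constructor
    · rintro ⟨j, hj, h3, rfl⟩
      rw [ih _ h3 (h3.le.trans hz)]
      exact h3
    · intro hi
      obtain ⟨j, hj, he⟩ := h2 i (hi.trans_le hz)
      refine ⟨j, hj, by rw [← he]; exact hi, ?_⟩
      rw [← he, ih _ hi (hi.le.trans hz)]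

theorem do_nth {π : Ordinal.{u} → Ordinal.{u}} (hπ : DR fun a b => b = π a) :
    DO.{u} fun w => nth (Sx π (w 2) (w 3)) (w 0) (w 1) := by
  have h1 : DO.{u} fun w => w 0 < w 2 ∧ ∃ j < w 1, w 0 = π j :=
    (DO.lt 0 2).and (DO.exLt (R := fun j w => w 0 = π j) 1
      (DO.s2 (X := fun a b => b = π a) hπ 0 1))
  exact All.db (fun x w => x < w 1 ∧ ∃ j < w 0, x = π j) h1

theorem do_rk {π : Ordinal.{u} → Ordinal.{u}} (hπ : DR fun a b => b = π a) :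
    DO.{u} fun w => w 2 = Rk π (w 0) (w 1) := by
  have h1 : DO.{u} fun w => w 2 < Rk π (w 0) (w 1) := by
    refine (DO.ex (R := fun z w => nth (Sx π (w 0) (w 1)) (w 2) z) ?_).congr fun w => lt_rk
    exact (do_nth hπ).ren fun n => if n = 0 then 3 else if n = 1 then 0 else if n = 2 then 1 else 2
  have h2 : DO.{u} fun w => ∀ i < w 2, i < Rk π (w 0) (w 1) :=
    DO.allLt (R := fun i w => i < Rk π (w 0) (w 1)) 2
      (h1.ren fun n => if n = 0 then 1 else if n = 1 then 2 else 0)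
  refine (h1.not.and h2).congr fun w => ?_
  constructor
  · intro h
    rw [← h]
    exact ⟨lt_irrefl _, fun i hi => hi⟩
  · rintro ⟨h3, h4⟩
    refine le_antisymm ?_ (not_lt.1 h3)
    by_contra hc
    push Not at hc
    exact lt_irrefl _ (h4 _ hc)

theorem rk_lt {π : Ordinal.{u} → Ordinal.{u}} (hπ : DR fun a b => b = π a) (ξ a : Ordinal.{u})
    (hξ : 0 < ξ) : Rk π ξ a < hs ξ := by
  by_cases h0 : Rk π ξ a = 0
  · rw [h0]
    exact hξ.trans (Pool.Agent.H54.CL.hs_gt ξ)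
  have h0' : 0 < Rk π ξ a := pos_iff_ne_zero.2 h0
  refine Pool.Agent.H54.CL.lt_hs (Pool.Agent.H54.CL.onto_of
    (R := fun j b => ∃ z, z = π j ∧ ((z < a ∧ b = Rk π ξ z) ∨ (¬ z < a ∧ b = 0))) ?_ ?_ ?_ ?_)
  · refine DO.ex (R := fun z w => z = π (w 0) ∧
      ((z < a ∧ w 1 = Rk π ξ z) ∨ (¬ z < a ∧ w 1 = 0))) ?_
    have h1 : DO.{u} fun w => w 2 = Rk π ξ (w 0) :=
      DO.sub (R := fun x w => w 2 = Rk π x (w 0)) ξ
        ((do_rk hπ).ren fun n => if n = 0 then 0 else if n = 1 then 1 else 3)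
    exact (DO.s2 (X := fun a b => b = π a) hπ 1 0).and (((DO.ltc 0 a).and h1).or ((DO.ltc 0 a).not.and (DO.eqc 2 0)))
  · intro j hj
    by_cases h : π j < a
    · exact ⟨Rk π ξ (π j), (rk1 π ξ a _).2 ⟨j, hj, h, rfl⟩, π j, rfl, Or.inl ⟨h, rfl⟩⟩
    · exact ⟨0, h0', π j, rfl, Or.inr ⟨h, rfl⟩⟩
  · rintro j - b b' ⟨z, rfl, h⟩ ⟨z', rfl, h'⟩
    rcases h with h | h <;> rcases h' with h' | h'
    · rw [h.2, h'.2]
    · exact absurd h.1 h'.1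
    · exact absurd h'.1 h.1
    · rw [h.2, h'.2]
  · intro b hb
    obtain ⟨j, hj, h1, h2⟩ := (rk1 π ξ a b).1 hb
    exact ⟨j, hj, π j, rfl, Or.inl ⟨h1, h2⟩⟩

theorem X : T_RK.{u} := fun π => ⟨rk1 π, fun hπ => ⟨do_rk hπ, rk_lt hπ⟩,
  fun κ ζ h1 h2 => rk3 π κ ζ h1 h2 ζ le_rfl⟩

end Pool.Agent.H60.HDA.RK
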